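import Pool.Agent.R351.GD.Hy.Tup

/-!
# Periods of algebraic fibres of hyperelliptic families: relations of growing degree

`f_1, …, f_N ∈ ℚ[X]` are monic of degree `n = 2g` with `n` distinct real roots, all different from `0`; `C_j(z)` is the
curve `y² = f_j(x) (x - z)` of genus `g`. We count the tuples of fibres `C_1(1 / t_1), …, C_N(1 / t_N)`, `t_j ≤ T`, whose
periods satisfy a relation of degree `≤ δ` over a number field of degree `≤ δ` (with no bound on the height of the
coefficients) which does not hold on the torsor of the product of the families: there are at most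
`C T^(N - 1 / (δ + 2)^C)` of them, uniformly in `δ`. In particular, for almost all tuples the periods satisfy the prediction
for all relations of degree up to a power of `log T`. The same holds for the relations with the periods of the central
fibres `C_j(0)` and with arbitrary further constants.
-/

set_option autoImplicit false

open Polynomial NumberField

namespace Pool.Agent.Results.MP_5591bc_ag.HyperellipticGrowingDegrees

variable {n N : ℕ}

/-- the branch points: `t` inserted at place `m` in the sequence of the `a i` -/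
noncomputable def branch (a : Fin n → ℝ) (m : Fin (n + 1)) (t : ℝ) : Fin (n + 1) → ℝ :=
  Fin.insertNth (α := fun _ => ℝ) m t a

/-- the period `∮ x^j dx / y`, `y² = ∏ (x - e i)`, over the loop around the segment `[e l, e (l + 1)]`, that is twice
the integral over the segment (principal branch of the square root) -/
noncomputable def period (e : Fin (n + 1) → ℝ) (l j : Fin n) : ℂ :=
  2 * ∫ x in (e l.castSucc)..(e l.succ), (x : ℂ) ^ (j : ℕ) / (((∏ i, (x - e i) : ℝ) : ℂ) ^ (1 / 2 : ℂ))

/-- the polarisation in terms of the forms `x^j dx / y`, `y² = F(x) = ∑ c_k x^k`: entries `(i - j)/2 * c_(i+j+2)` -/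
noncomputable def polDR (n : ℕ) (F : ℚ[X]) : Matrix (Fin n) (Fin n) ℚ :=
  Matrix.of fun i j => (((i : ℕ) : ℚ) - ((j : ℕ) : ℚ)) / 2 * F.coeff ((i : ℕ) + (j : ℕ) + 2)

/-- the polarisation in terms of the loops: `2 (-1)^r` at `(r, s)`, `|r - s| = 1` -/
def polB (n : ℕ) : Matrix (Fin n) (Fin n) ℚ :=
  Matrix.of fun r s => if (r : ℕ) = s + 1 ∨ (s : ℕ) = r + 1 then 2 * (-1) ^ (r : ℕ) else 0

/-- the point with coordinates the entries of the matrices `X j` and `lam` -/
def point (X : Fin N → Matrix (Fin n) (Fin n) ℂ) (lam : ℂ) : Option (Fin N × Fin n × Fin n) → ℂ :=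
  fun o => o.elim lam fun x => X x.1 x.2.1 x.2.2

/-- the entries of the matrices `X j` -/
def entries (X : Fin N → Matrix (Fin n) (Fin n) ℂ) : Fin N × Fin n × Fin n → ℂ := fun x => X x.1 x.2.1 x.2.2

/-- the complex points of the torsor of the curves `y² = F_j(x)`: matrices `X_j` and `lam ≠ 0` with
`X_j polDR(F_j) X_jᵀ = lam polB` (a torsor under `{(g_1, …, g_N) : g_j ∈ GSp_(2g), equal multipliers}`) -/
def Torsor (F : Fin N → ℚ[X]) : Set ((Fin N → Matrix (Fin n) (Fin n) ℂ) × ℂ) :=
  {x | x.2 ≠ 0 ∧ ∀ j, x.1 j * (polDR n (F j)).map (algebraMap ℚ ℂ) * (x.1 j).transpose =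
    x.2 • (polB n).map (algebraMap ℚ ℂ)}

/-- every polynomial `P` of degree `≤ D` with coefficients in a number field of degree `≤ d` (any such field, no bound
on the height of the coefficients) with `P(c) = 0` vanishes on the torsor -/
def DegreeGPC (F : Fin N → ℚ[X]) (c : Option (Fin N × Fin n × Fin n) → ℂ) (d D : ℕ) : Prop :=
  ∀ (K : Type) [Field K] [NumberField K] (φ : K →+* ℂ) (P : MvPolynomial (Option (Fin N × Fin n × Fin n)) K),
    Module.finrank ℚ K ≤ d → P.totalDegree ≤ D → (P.map φ).eval c = 0 →
    ∀ x ∈ Torsor (n := n) F, (P.map φ).eval (point x.1 x.2) = 0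

/-- relations with the constants `w` and `c0`: every polynomial `P` of degree `≤ D` with coefficients in a number field of
degree `≤ d` with `P(w, c0, Y) = 0` vanishes at `(w, c0, x)` for all the points `x` of the torsor with `lam = 2πi` -/
def RelativeGPC {q : ℕ} (w : Fin q → ℂ) (c0 : Option (Fin N × Fin n × Fin n) → ℂ) (F : Fin N → ℚ[X])
    (Y : Fin N → Matrix (Fin n) (Fin n) ℂ) (d D : ℕ) : Prop :=
  ∀ (K : Type) [Field K] [NumberField K] (φ : K →+* ℂ)
    (P : MvPolynomial ((Fin q ⊕ Option (Fin N × Fin n × Fin n)) ⊕ Fin N × Fin n × Fin n) K),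
    Module.finrank ℚ K ≤ d → P.totalDegree ≤ D → (P.map φ).eval (Sum.elim (Sum.elim w c0) (entries Y)) = 0 →
    ∀ x ∈ Torsor (n := n) F, x.2 = 2 * Real.pi * Complex.I →
      (P.map φ).eval (Sum.elim (Sum.elim w c0) (entries x.1)) = 0

/-- The statement for the fibres `y² = f_j(x) (x - 1 / t_j)`: the `1 / t_j` are in the gaps of `0`, the point formed by the
period matrices of the fibres and by `2πi` is on the torsor, all the relations of degree `≤ δ` over number fields of degree
`≤ δ` which hold at the point hold on the torsor, and all the relations of degree `≤ δ` over number fields of degree `≤ δ`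
between the periods of the fibres, the numbers `w`, `2πi` and the periods of the central fibres `y² = f_j(x) x` hold at all
the points of the torsor with `lam = 2πi`. -/
def Good {q : ℕ} (δ : ℕ) (w : Fin q → ℂ) (a : Fin N → Fin n → ℝ) (m : Fin N → Fin (n + 1)) (f : Fin N → ℚ[X])
    (t : Fin N → ℕ) : Prop :=
  (∀ j, StrictMono (branch (a j) (m j) (1 / (t j : ℝ)))) ∧
    ((fun j => Matrix.of (period (branch (a j) (m j) (1 / (t j : ℝ))))), (2 * Real.pi * Complex.I : ℂ)) ∈
      Torsor (n := n) (fun j => f j * (X - C (1 / (t j : ℚ)))) ∧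
    DegreeGPC (fun j => f j * (X - C (1 / (t j : ℚ))))
      (point (fun j => Matrix.of (period (branch (a j) (m j) (1 / (t j : ℝ))))) (2 * Real.pi * Complex.I)) δ δ ∧
    RelativeGPC w (point (fun j => Matrix.of (period (branch (a j) (m j) 0))) (2 * Real.pi * Complex.I))
      (fun j => f j * (X - C (1 / (t j : ℚ)))) (fun j => Matrix.of (period (branch (a j) (m j) (1 / (t j : ℝ))))) δ δ

open Classical in
/-- Let `f_1, …, f_N ∈ ℚ[X]` be monic of even degree `n` with distinct real roots `a_j`, all different from `0`; `m_j` is the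
place of `0` among the roots of `f_j`. For all `q` there is `C` such that for all `δ`, all `w ∈ ℂ^q` and all `T ≥ 1` the
statement of degree `δ` holds for all but at most `C T^(N - 1 / (δ + 2)^C)` of the tuples of the fibres
`y² = f_j(x) (x - 1 / t_j)`, `1 ≤ t_j ≤ T`. -/
theorem result (hn : Even n) (a : Fin N → Fin n → ℝ) (f : Fin N → ℚ[X])
    (hf : ∀ j, (f j).map (algebraMap ℚ ℝ) = ∏ i, (X - C (a j i))) (m : Fin N → Fin (n + 1))
    (h0 : ∀ j, StrictMono (branch (a j) (m j) 0)) (q : ℕ) :
    ∃ C₀ : ℕ, ∀ (δ : ℕ) (w : Fin q → ℂ) (T : ℕ), 1 ≤ T →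
      (((Fintype.piFinset fun _ : Fin N => Finset.Icc 1 T).filter fun t => ¬ Good δ w a m f t).card : ℝ) ≤
      C₀ * (T : ℝ) ^ ((N : ℝ) - 1 / ((δ : ℝ) + 2) ^ C₀) :=
  Pool.Agent.R351.GD.Hy.tfin hn N q a f hf m h0

end Pool.Agent.Results.MP_5591bc_ag.HyperellipticGrowingDegrees
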