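import Pool.Agent.R437.Met.Hs
import Pool.Agent.R437.Met.Exh
import Pool.Agent.Results.MP_5591bc_ag.EllipticFamilies

/-!
# Periods of the fibres of `n` families of elliptic curves over the algebraic points near a given point

Let `a_j`, `b_j` be polynomials (`j = 1, …, n`) such that `a_j³ / b_j²` is not constant, and consider the families of
elliptic curves `y² = x³ + a_j(s) x + b_j(s)` and their product over the `n`-dimensional space of the
`(s_1, …, s_n)`. Let `F` be a number field in `ℂ` and `c_1, c_2, …` any complex numbers. For all points `ξ` outside a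
set of Hausdorff dimension at most `2 [F : ℚ] (n - 1) / τ` the `n`-tuples `t` of elements of `F` of height at most `T`,
`T` large, with `|ξ_j - t_j| ≤ C T ^ (-τ)` have the following property: the `3 n` periods of the `n` curves satisfy no
relation, not even an approximate one, of degree at most `d` whose coefficients are linear combinations of
`c_1, …, c_g` with coefficients in `F` of height at most `T ^ A`. For `n = 1` the exceptional set has dimension zero,
for every `τ > 0`. The starting file `EllipticFamilies` bounds the number of the exceptional tuples by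
`C T ^ ε N(T) ^ (n - 1)`, `N(T)` being the number of elements of `F` of height at most `T` in a compact set.
-/

set_option autoImplicit false

open NumberField

namespace Pool.Agent.Results.MP_5591bc_ag.NearEveryPoint

open Pool.Agent.R437.Met

/-- For `v² = r - p` and `(q - p) / (r - p)` not in `[1, ∞)` this is the integral of `x ^ k dx / y` over the cycle of
`y² = (x - p)(x - q)(x - r)` around the segment from `p` to `q` (substitute `x = p + (q - p) sin² θ`). -/
noncomputable def per (p q v : ℂ) (k : ℕ) : ℂ :=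
  4 / v * ∫ θ in (0 : ℝ)..(Real.pi / 2), (p + (q - p) * (Real.sin θ : ℂ) ^ 2) ^ k *
    (1 - (q - p) / v ^ 2 * (Real.sin θ : ℂ) ^ 2) ^ (-(1 / 2) : ℂ)

/-- For the curve `y² = (x - e₀)(x - e₁)(x - e₂)` and a square root `v` of `e₁ - e₀`, these are the two periods of
`dx / y` and one period of `x dx / y`: the periods over the cycles around the segments from `e₀` to `e₂` and from `e₁`
to `e₂`, a basis of the homology. -/
noncomputable def periods (e : Fin 3 → ℂ) (v : ℂ) (i : Fin 3) : ℂ :=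
  ![per (e 0) (e 2) v 0, per (e 1) (e 2) (-Complex.I * v) 0, per (e 0) (e 2) v 1] i

/-- The elements of the number field `F` which are quotients of two integers of `F` all of whose conjugates have
absolute value at most `T`. -/
def Points (F : Type) [Field F] [NumberField F] (T : ℝ) : Set F :=
  {x | ∃ a b : 𝓞 F, b ≠ 0 ∧ (∀ φ : F →+* ℂ, ‖φ a‖ ≤ T ∧ ‖φ b‖ ≤ T) ∧ x = a / b}

/-- There are numberings of the roots `e_{j0}, e_{j1}, e_{j2}` of `x³ + a_j(t_j) x + b_j(t_j)` with
`(e_{j2} - e_{j0}) / (e_{j1} - e_{j0}) ∈ L`, square roots `v_j` of `e_{j1} - e_{j0}`, and a polynomial `P` of degree at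
most `d` in each of `3n` variables, with coefficients of the form `∑ c_i ι(r_i)`, where the `r_i` are integers of `F`
all of whose conjugates have absolute value at most `T ^ A`, such that the value of `P` at the `3n` periods is at most
`T ^ (-B)` times the absolute value of some nonzero coefficient of `P`. -/
def Related {n g : ℕ} (a b : Fin n → Polynomial ℂ) (F : Type) [Field F] [NumberField F] (ι : F →+* ℂ)
    (c : Fin g → ℂ) (L : Set ℂ) (d : ℕ) (A B T : ℝ) (t : Fin n → F) : Prop :=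
  ∃ (e : Fin n → Fin 3 → ℂ) (v : Fin n → ℂ),
    (∀ j, (∀ x : ℂ, x ^ 3 + (a j).eval (ι (t j)) * x + (b j).eval (ι (t j)) =
      (x - e j 0) * (x - e j 1) * (x - e j 2)) ∧
      v j ^ 2 = e j 1 - e j 0 ∧ (e j 2 - e j 0) / (e j 1 - e j 0) ∈ L) ∧
    ∃ P : MvPolynomial (Fin n × Fin 3) ℂ, (∀ x, P.degreeOf x ≤ d) ∧
    (∀ s, ∃ r : Fin g → 𝓞 F, (∀ i (φ : F →+* ℂ), ‖φ (r i)‖ ≤ T ^ A) ∧ P.coeff s = ∑ i, c i * ι (r i)) ∧
    ∃ s₀, P.coeff s₀ ≠ 0 ∧
      ‖MvPolynomial.aeval (fun x : Fin n × Fin 3 => periods (e x.1) (v x.1) x.2) P‖ ≤ T ^ (-B) * ‖P.coeff s₀‖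

/-- **Periods near a given point.** Let `a_j`, `b_j` be `n ≥ 1` pairs of polynomials with `b_j ≠ 0` and `a_j³` not a
constant multiple of `b_j²`, `F` a number field with an embedding `ι` in `ℂ`, `c` a sequence of complex numbers. For
every `τ > 0` there is a set `E` of Hausdorff dimension at most `2 [F : ℚ] (n - 1) / τ` such that for all `ξ` outside
`E`, for which no `4 a_j³ + 27 b_j²` vanishes at any `ξ_i`, all compact subsets `L` of `ℂ` without
`(-∞, 0] ∪ [1, ∞)` and all `g`, `d`, `A` there is `B` such that for all `C` and all large `T`: for the `n`-tuples `t`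
of elements of `F` of height at most `T` with `|ξ_j - ι(t_j)| ≤ C T ^ (-τ)` for all `j` the periods of the fibres over
`t` are not related in the sense of `Related`, with coefficients that are linear combinations of the first `g` of the
numbers `c`. -/
theorem result (n : ℕ) (hn : 1 ≤ n) (a b : Fin n → Polynomial ℂ) (hb : ∀ j, b j ≠ 0)
    (hab : ∀ j, ∀ c : ℂ, a j ^ 3 ≠ Polynomial.C c * b j ^ 2) (F : Type) [Field F] [NumberField F]
    (ι : F →+* ℂ) (c : ℕ → ℂ) (τ : ℝ) (hτ : 0 < τ) :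
    ∃ E : Set (Fin n → ℂ), dimH E ≤ ENNReal.ofReal (2 * (Module.finrank ℚ F : ℝ) * ((n : ℝ) - 1) / τ) ∧
      ∀ ξ : Fin n → ℂ, (∀ i j, 4 * (a j).eval (ξ i) ^ 3 + 27 * (b j).eval (ξ i) ^ 2 ≠ 0) → ξ ∉ E →
        ∀ L : Set ℂ, IsCompact L → (∀ l ∈ L, l ∈ Complex.slitPlane ∧ 1 - l ∈ Complex.slitPlane) →
        ∀ (g d : ℕ) (A : ℝ), ∃ B : ℝ, ∀ C : ℝ, ∃ T₁ : ℝ, ∀ T : ℝ, T₁ ≤ T → ∀ t : Fin n → F,
          (∀ j, t j ∈ Points F T ∧ ‖ξ j - ι (t j)‖ ≤ C * T ^ (-τ)) →
            ¬ Related a b F ι (fun i : Fin g => c i) L d A B T t := by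
  have hDo : IsOpen {l : ℂ | l ∈ Complex.slitPlane ∧ 1 - l ∈ Complex.slitPlane} :=
    Complex.isOpen_slitPlane.inter (Complex.isOpen_slitPlane.preimage (continuous_const.sub continuous_id))
  obtain ⟨M, hM, hMD, hML⟩ := Near.exhaust_fin _ hDo
  have hSo : IsOpen {s : ℂ | ∀ j, 4 * (a j).eval s ^ 3 + 27 * (b j).eval s ^ 2 ≠ 0} := by
    rw [show {s : ℂ | ∀ j, 4 * (a j).eval s ^ 3 + 27 * (b j).eval s ^ 2 ≠ 0} =
      ⋂ j, {s : ℂ | 4 * (a j).eval s ^ 3 + 27 * (b j).eval s ^ 2 ≠ 0} by ext; simp]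
    refine isOpen_iInter_of_finite fun j => isOpen_ne_fun ?_ continuous_const
    exact (continuous_const.mul ((a j).continuous.pow 3)).add (continuous_const.mul ((b j).continuous.pow 2))
  obtain ⟨E, hE, h⟩ := Hs.tuple F ι n hn (fun _ => {s : ℂ | ∀ j, 4 * (a j).eval s ^ 3 + 27 * (b j).eval s ^ 2 ≠ 0})
    (fun _ => hSo) (J := (ℕ × ℕ) × Finset ℕ)
    (fun q A B T t => Related a b F ι (fun i : Fin q.1.1 => c i) (M q.2) q.1.2 A B T t)
    (by
      rintro d A A' B T t hA hT ⟨e, v, he, P, h1, h2, h3⟩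
      refine ⟨e, v, he, P, h1, fun s => ?_, h3⟩
      obtain ⟨r, hr, hr'⟩ := h2 s
      exact ⟨r, fun i φ => (hr i φ).trans (Fam.pow_mono hA hT), hr'⟩)
    (by
      rintro d A B B' T t hB hT ⟨e, v, he, P, h1, h2, s₀, h3, h4⟩
      exact ⟨e, v, he, P, h1, h2, s₀, h3, h4.trans (mul_le_mul_of_nonneg_right
        (Fam.pow_mono (by linarith) hT) (norm_nonneg _))⟩)
    (by
      rintro d A B T T' t hA hB h2B hT hTT hT2 ⟨e, v, he, P, h1, h2, s₀, h3, h4⟩
      refine ⟨e, v, he, P, h1, fun s => ?_, s₀, h3, h4.trans (mul_le_mul_of_nonneg_right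
        (Fam.pow_dyadic hB hT hTT hT2 h2B) (norm_nonneg _))⟩
      obtain ⟨r, hr, hr'⟩ := h2 s
      exact ⟨r, fun i φ => (hr i φ).trans (Real.rpow_le_rpow (by linarith) hTT hA), hr'⟩)
    (by
      rintro K hK hKS ⟨⟨g, d⟩, m⟩ A ε hε
      have hK' : IsCompact (⋃ j, K j) := isCompact_iUnion hK
      obtain ⟨B, C, T₀, h⟩ := EllipticFamilies.result (Module.finrank ℚ F) n g d a b hb hab (⋃ j, K j) hK'
        (fun j s hs => by
          obtain ⟨i, hi⟩ := Set.mem_iUnion.1 hs
          exact hKS i hi j)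
        (M m) (hM m) (fun l hl => hMD m hl) A ε hε
      refine ⟨B, C, T₀, ⋃ j, K j, fun T hT => ?_⟩
      obtain ⟨h1, h2⟩ := h F le_rfl ι (fun i : Fin g => c i) T hT
      have hsub : {x : Fin n → F | (∀ j, ι (x j) ∈ K j ∧ Hs.IsPt F T (x j)) ∧
          Related a b F ι (fun i : Fin g => c i) (M m) d A B T x} ⊆
          EllipticFamilies.Exceptional a b d F ι (fun i : Fin g => c i) (⋃ j, K j) (M m) A B T := by
        rintro x ⟨h3, h4⟩
        exact ⟨fun j => ⟨Set.mem_iUnion.2 ⟨j, (h3 j).1⟩, (h3 j).2⟩, h4⟩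
      refine ⟨h1.subset hsub, le_trans ?_ h2⟩
      exact_mod_cast Set.ncard_le_ncard hsub h1)
    τ hτ
  refine ⟨E, hE, fun ξ hξ hξE L hL hLD g d A => ?_⟩
  obtain ⟨m, hm⟩ := hML L hL hLD
  obtain ⟨B, hB⟩ := h ξ hξ hξE ((g, d), m) A
  refine ⟨B, fun C => ?_⟩
  obtain ⟨T₁, hT₁⟩ := hB C
  refine ⟨T₁, fun T hT t ht hrel => hT₁ T hT t ht ?_⟩
  obtain ⟨e, v, he, hrest⟩ := hrel
  exact ⟨e, v, fun j => ⟨(he j).1, (he j).2.1, hm (he j).2.2⟩, hrest⟩

end Pool.Agent.Results.MP_5591bc_ag.NearEveryPoint
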