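import Pool.Agent.R349.Short2
import Pool.Agent.Y771.RP.Nest

/-!
# Periods of algebraic fibres of families of products of elliptic curves: a bounded number of exceptions in small discs

Let `α_N < ⋯ < α_0 < γ_0 < ⋯ < γ_N` be real numbers, and let `s_i`, `i = 0, …, N`, be the Moebius function with
`s_i(α_i) = 0`, `s_i(γ_i) = 1` given by `s_i(t) = (t - α_i) / (γ_i - α_i + κ_i (t - γ_i))`, `κ_i < 1`. Consider the family
over the `t`-line with the fibres `E_{s_0(t)} × ⋯ × E_{s_N(t)}`, where `E_λ : y² = x (x - 1) (x - λ)`; for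
`κ_i = 0` the curve `E_{s_i(t)}` is isomorphic over an algebraic closure to `y² = (x - α_i) (x - γ_i) (x - t)`. For
algebraic `α_i, γ_i, κ_i` and algebraic `t` the field generated by the periods of the fibre is, up to algebraic numbers,
generated by `π` and the `3 (N + 1)` numbers `K(s_i(t))`, `E(s_i(t))`, `K(1 - s_i(t))`; the conjecture says that these
`3 (N + 1) + 1` numbers are algebraically independent for all algebraic `t` outside the Hodge locus.

We take products of fibres of `n` such families (equal or different) over algebraic points,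
and show that this is true in bounded degree and height, with **a bounded number of exceptions in small discs**: let
`X_1, …, X_n` be finite sets of elements `x` of a number field `F` of degree at most `m`, of height at most `T`, with
images in compact subsets `K_j` of the plane without the real rays `(-∞, α_{j0}]` and `[γ_{j0}, ∞)`, each of the `X_j` of
diameter at most `T ^ (-δ)`, `δ > 0` arbitrary; for instance all elements of `X_j` can be fractions with one fixed
denominator `T`. All but `C ∑_j ∏_(i ≠ j) |X_i|` of the tuples of `X_1 × … × X_n` are good, and there is a good one if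
all `|X_j| > C`; here `C` does not depend on `T`, `F` and the `X_j`. Good means that the `3 ∑ (N_j + 1)` numbers satisfy no
approximate relation of degree at most `d` and height at most `T ^ A` whose coefficients are combinations of given
complex numbers `ξ_1, …, ξ_g`, for instance of monomials in the periods of a fixed variety, and together with `π` no
relation over `F`.

The proof uses the algebraic independence of the functions (`Pool.Agent.Y771.RP.fN_locInd`) and a determinant method for
small discs (`Pool.Agent.R349.Gen.shortS`).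
-/

set_option autoImplicit false

open NumberField

namespace Pool.Agent.Results.MP_5591bc_ag.SmallDiscs

/-- The integral of `(1 - λ sin² θ) ^ s` over `[0, π/2]`: the complete elliptic integral `K(λ)` for `s = -1/2`, and `E(λ)`
for `s = 1/2`. -/
noncomputable def ell (s lam : ℂ) : ℂ :=
  ∫ θ in (0 : ℝ)..(Real.pi / 2), (1 - lam * (Real.sin θ : ℂ) ^ 2) ^ s

/-- The Moebius function with the values `0` and `1` at `α` and `γ`. -/
noncomputable def moebius (α γ κ : ℝ) (t : ℂ) : ℂ := (t - α) / ((γ - α) + κ * (t - γ))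

/-- The numbers `K(λ)`, `E(λ)`, `K(1 - λ)`, where `λ = s_i(t)`. -/
noncomputable def periods {N : ℕ} (α γ κ : Fin (N + 1) → ℝ) (t : ℂ) (y : Fin (N + 1) × Fin 3) : ℂ :=
  ![ell (-(1 / 2)) (moebius (α y.1) (γ y.1) (κ y.1) t), ell (1 / 2) (moebius (α y.1) (γ y.1) (κ y.1) t),
    ell (-(1 / 2)) (1 - moebius (α y.1) (γ y.1) (κ y.1) t)] y.2

/-- The parameters `α_N < ⋯ < α_0 < γ_0 < ⋯ < γ_N` and `κ_i < 1` of a family of products of elliptic curves. -/
structure Family {N : ℕ} (α γ κ : Fin (N + 1) → ℝ) : Prop where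
  anti : StrictAnti α
  mono : StrictMono γ
  lt : α 0 < γ 0
  kappa : ∀ i, κ i < 1

/-- The plane without the real rays `(-∞, α]` and `[γ, ∞)`. -/
def Plane (α γ : ℝ) : Set ℂ := {t | t.im = 0 → α < t.re ∧ t.re < γ}

/-- The polynomials of degree at most `d` in each variable, all of whose coefficients are of the form `∑ ξ_i ι(c_i)`, where
the `c_i` are integers of the number field `F` all of whose conjugates have absolute value at most `H`. -/
def Admissible {σ : Type} {g : ℕ} (F : Type) [Field F] [NumberField F] (ι : F →+* ℂ) (ξ : Fin g → ℂ) (d : ℕ) (H : ℝ)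
    (P : MvPolynomial σ ℂ) : Prop :=
  (∀ y, P.degreeOf y ≤ d) ∧
    ∀ s, ∃ c : Fin g → 𝓞 F, (∀ i (φ : F →+* ℂ), ‖φ (c i)‖ ≤ H) ∧ P.coeff s = ∑ i, ξ i * ι (c i)

/-- The complex numbers `v` are good: every admissible polynomial takes at them a value which is at least `δ` times each of
its coefficients, and `π` and these numbers satisfy no relation `Q = 0` with a nonzero polynomial `Q` of degree at most `d`
in each variable whose coefficients are integers of `F` with conjugates of absolute value at most `H`. -/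
def Good {σ : Type} {g : ℕ} (F : Type) [Field F] [NumberField F] (ι : F →+* ℂ) (ξ : Fin g → ℂ) (d : ℕ)
    (H δ : ℝ) (v : σ → ℂ) : Prop :=
  (∀ P : MvPolynomial σ ℂ, Admissible F ι ξ d H P → ∀ s, δ * ‖P.coeff s‖ ≤ ‖MvPolynomial.aeval v P‖) ∧
  ∀ Q : MvPolynomial (Option σ) (𝓞 F), Q ≠ 0 → (∀ x, Q.degreeOf x ≤ d) →
    (∀ s (φ : F →+* ℂ), ‖φ ((Q.coeff s : 𝓞 F) : F)‖ ≤ H) →
    MvPolynomial.eval₂ (ι.comp (algebraMap (𝓞 F) F)) (fun o => o.elim (Real.pi : ℂ) v) Q ≠ 0

/-- The element `x` of `F` is a quotient of integers all of whose conjugates have absolute value at most `T`. -/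
def HeightLe (F : Type) [Field F] [NumberField F] (T : ℝ) (x : F) : Prop :=
  ∃ a b : 𝓞 F, b ≠ 0 ∧ (∀ φ : F →+* ℂ, ‖φ a‖ ≤ T ∧ ‖φ b‖ ≤ T) ∧ x = a / b

theorem periods_eq {N : ℕ} (α γ κ : Fin (N + 1) → ℝ) (y : Fin (N + 1) × Fin 3) :
    (fun t => periods α γ κ t y) = Y771.RP.fN α γ κ y := by
  funext t
  obtain ⟨i, k⟩ := y
  fin_cases k <;> rfl

/-- For `n` families of shapes `N_j`, compact sets `K_j` in the planes, and all `m`, `g`, `d`, `A` and `δ > 0` there are
`B`, `C`, `T₀` with the property stated above. -/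
theorem result {n : ℕ} {N : Fin n → ℕ} (α γ κ : ∀ j, Fin (N j + 1) → ℝ) (hV : ∀ j, Family (α j) (γ j) (κ j))
    (K : Fin n → Set ℂ) (hK : ∀ j, IsCompact (K j)) (hKV : ∀ j, K j ⊆ Plane (α j 0) (γ j 0))
    (m g d : ℕ) (A δ : ℝ) (hδ : 0 < δ) :
    ∃ (B : ℝ) (C : ℕ) (T₀ : ℝ), ∀ (F : Type) [Field F] [NumberField F], Module.finrank ℚ F ≤ m →
      ∀ (ι : F →+* ℂ) (ξ : Fin g → ℂ) (T : ℝ), T₀ ≤ T → ∀ X : Fin n → Finset F,
        (∀ j, ∀ x ∈ X j, ι x ∈ K j ∧ HeightLe F T x) → (∀ j, ∀ x ∈ X j, ∀ y ∈ X j, ‖ι x - ι y‖ ≤ T ^ (-δ)) →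
        (({x : Fin n → F | (∀ j, x j ∈ X j) ∧ ¬ Good F ι ξ d (T ^ A) (T ^ (-B))
          (fun y : Σ j, (Fin (N j + 1) × Fin 3) => periods (α y.1) (γ y.1) (κ y.1) (ι (x y.1)) y.2)}.ncard : ℝ) ≤
          C * ∑ j, ∏ i ∈ Finset.univ.erase j, ((X i).card : ℝ)) ∧
        ((∀ j, C < (X j).card) → ∃ x : Fin n → F, (∀ j, x j ∈ X j) ∧ Good F ι ξ d (T ^ A) (T ^ (-B))
          (fun y : Σ j, (Fin (N j + 1) × Fin 3) => periods (α y.1) (γ y.1) (κ y.1) (ι (x y.1)) y.2)) := by
  classical
  have hop : ∀ j, IsOpen (Plane (α j 0) (γ j 0)) := by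
    intro j
    have h1 : Plane (α j 0) (γ j 0) = {t : ℂ | t.im ≠ 0} ∪ ({t : ℂ | α j 0 < t.re} ∩ {t : ℂ | t.re < γ j 0}) := by
      ext t
      simp only [Plane, Set.mem_ofPred_eq, Set.mem_union, Set.mem_inter_iff]
      tauto
    rw [h1]
    exact (isOpen_ne_fun Complex.continuous_im continuous_const).union
      ((isOpen_lt continuous_const Complex.continuous_re).inter (isOpen_lt Complex.continuous_re continuous_const))
  exact Pool.Agent.R349.Gen.shortS m n g d (κ := fun j => Fin (N j + 1) × Fin 3) hop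
    (fun j => Y771.RP.isPreconnected_Om (hV j).lt) (fun j y t => periods (α j) (γ j) (κ j) t y)
    (fun j y => by
      rw [periods_eq]
      exact fun t ht => Y771.RP.fN_an (α j) (γ j) (κ j) (hV j).anti (hV j).mono (hV j).lt (hV j).kappa y t ht)
    (fun j t ht => by
      have h1 : (fun y t => periods (α j) (γ j) (κ j) t y) = Y771.RP.fN (α j) (γ j) (κ j) :=
        funext fun y => periods_eq _ _ _ y
      rw [h1]
      exact Y771.RP.fN_locInd (α j) (γ j) (κ j) (hV j).anti (hV j).mono (hV j).lt (hV j).kappa t ht)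
    K hK hKV A δ hδ

end Pool.Agent.Results.MP_5591bc_ag.SmallDiscs
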